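import Pool.Agent.Lib.MP_1a1aec_lc.Atomic

/-!
There is a notion of class forcing (two parameter-free formulas) whose truth lemma fails over
every countable transitive model of ZFC. It fails already for the atomic formulas `v₀ = v₁` and
`v₀ ∈ v₁`.

All definitions used in the statement are in `Pool.Agent.Lib.MP_1a1aec_lc.Defs`.
-/

open FirstOrder FirstOrder.Language Pool.Agent.Lib.MP_1a1aec_lc

namespace Pool.Agent.Results.MP_1a1aec_lc.AtomicTruthLemma

/-- **Answer to Q1 (yes)**: there is a notion of class forcing, given by two formulas without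
parameters, such that over every countable transitive model of ZFC these formulas define a
partial order whose truth lemma fails (first two clauses); moreover, over every such model it
fails for the atomic formula `v₀ = v₁`, and also for the atomic formula `v₀ ∈ v₁`. -/
theorem result : ∃ Q : Notion, (∀ M : Set ZFSet.{0}, IsCTM M → Q.IsPartialOrderOver M) ∧
    (∀ M : Set ZFSet.{0}, IsCTM M → ∃ (n : ℕ) (φ : LSet.Formula (Fin n)), ¬ Q.TruthLemma M φ) ∧
    ∀ M : Set ZFSet.{0}, IsCTM M →
      ¬ Q.TruthLemma M (Term.equal (Term.var 0) (Term.var 1) : LSet.Formula (Fin 2)) ∧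
      ¬ Q.TruthLemma M (Relations.formula₂ (MemSymb.mem : LSet.Relations 2) (Term.var 0)
        (Term.var 1) : LSet.Formula (Fin 2)) :=
  ⟨Pool.Agent.Lib.MP_1a1aec_lc.Q, fun _ hM => isPartialOrder hM.tm,
    fun _ hM => ⟨2, eqF, truthLemma_eq_fails hM⟩,
    fun _ hM => ⟨truthLemma_eq_fails hM, truthLemma_mem_fails hM⟩⟩

end Pool.Agent.Results.MP_1a1aec_lc.AtomicTruthLemma
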